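import Pool.Agent.helper32.PN.Spec

set_option autoImplicit false

namespace Pool.Agent.PN

open Module Polynomial Pool.Agent.helper27.PC

noncomputable section

lemma ASY_coeff (p : ℤ[X]) (N x : ℕ) (h : ∀ y < N, p.coeff y = 0) (hx : x < 2 * N) : (p ^ 2).coeff x = 0 := by
  rw [pow_two, coeff_mul]
  refine Finset.sum_eq_zero fun a ha => ?_
  rw [Finset.HasAntidiagonal.mem_antidiagonal] at ha
  by_cases h1 : a.1 < N
  · rw [h _ h1, zero_mul]
  · rw [h a.2 (by omega), mul_zero]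

theorem ASY (hDEC : DEC_stmt) (hBADV : BADV_stmt) (hLST : LST_stmt) (hSUMC : SUMC_stmt) : ASY_stmt := by
  intro t K ρ J z hodd hJ hK hHole
  have hlim : Filter.Tendsto (fun k : ℕ => ∑ s : Bool, ∑ i ∈ Finset.range (J + ρ.sum + 2), ∑ T ∈ ends i (base s K),
      (((Af t s K ρ 0 i T k ^ 2).coeff (2 * J * k + z).toNat : ℤ) : ℝ) / (k : ℝ) ^ (2 * J - 1)) Filter.atTop
      (nhds (∑ s : Bool, ∑ i ∈ Finset.range (J + ρ.sum + 2), ∑ T ∈ ends i (base s K), ((ell t s K ρ J z i T : ℚ) : ℝ))) := by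
    refine tendsto_finset_sum _ fun s _ => tendsto_finset_sum _ fun i hi => tendsto_finset_sum _ fun T hT => ?_
    have hiK : i ≤ K := by
      have := Finset.mem_range.1 hi
      omega
    refine hLST t s K ρ J z i T hodd hJ hiK hT fun hts hiJ => ?_
    subst hiJ
    exact hHole s hts T hT
  have hval : (∑ s : Bool, ∑ i ∈ Finset.range (J + ρ.sum + 2), ∑ T ∈ ends i (base s K), ((ell t s K ρ J z i T : ℚ) : ℝ)) =
      ((Lq t K ρ J z : ℚ) : ℝ) := by
    rw [← hSUMC t K ρ J z hodd hJ]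
    push_cast
    rfl
  rw [hval] at hlim
  refine hlim.congr' ?_
  filter_upwards [Filter.eventually_ge_atTop (4 * (J + 1) + 2 * K + 2 + (2 * (J + 1) * (J + 1) + z.natAbs + 1))] with k hk
  have hn : 2 * K + 2 ≤ k + ρ.sum := by omega
  have hdec := hDEC (J + 1 + ρ.sum) K (k + ρ.sum) (by omega) hn
    (fun S => (U t (k + ρ.sum) (ρ ++ List.replicate k 1) S ^ 2).coeff (2 * J * k + z).toNat)
  have hbad : ∑ S ∈ (ends (k + ρ.sum) (vac (k + ρ.sum))).filter (fun S => ∀ (s : Bool) (p : ℕ), p ≤ J + 1 + ρ.sum → (s, p) ∈ S),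
      (U t (k + ρ.sum) (ρ ++ List.replicate k 1) S ^ 2).coeff (2 * J * k + z).toNat = 0 := by
    refine Finset.sum_eq_zero fun S hS => ?_
    rw [Finset.mem_filter] at hS
    refine ASY_coeff _ ((J + 1) * (k - (J + 1))) _ ?_ ?_
    · refine hBADV t (k + ρ.sum) k (J + 1) ρ S (fun a ha => (hodd a ha).pos) ?_ (by omega) ?_
      · rw [add_comm ρ.sum k]
        exact hS.1
      · intro s p hp
        exact hS.2 s p (by omega)
    · have h1 : (z : ℤ) ≤ z.natAbs := Int.le_natAbs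
      have h2 : ((k - (J + 1) : ℕ) : ℤ) = k - (J + 1) := by
        rw [Nat.cast_sub (by omega)]
        push_cast
        ring
      have h3 : (k : ℤ) ≥ 4 * (J + 1) + 2 * K + 2 + (2 * (J + 1) * (J + 1) + z.natAbs + 1) := by exact_mod_cast hk
      have h4 : (2 * J * k + z : ℤ) < ((2 * ((J + 1) * (k - (J + 1))) : ℕ) : ℤ) := by
        push_cast
        rw [h2]
        nlinarith
      have h5 : 2 * ((J + 1) * (k - (J + 1))) ≠ 0 := by
        have : 0 < k - (J + 1) := by omega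
        positivity
      exact (Int.toNat_lt' (Nat.pos_of_ne_zero h5)).2 h4
  rw [hbad, zero_add] at hdec
  have hJ0 : J + 1 + ρ.sum + 1 = J + ρ.sum + 2 := by omega
  rw [hJ0] at hdec
  have hAf : ∀ (s : Bool) (i : ℕ) (T : St), Af t s K ρ 0 i T k =
      U t (k + ρ.sum) (ρ ++ List.replicate k 1) (emb s K (k + ρ.sum) i T) := by
    intro s i T
    unfold Af
    rw [add_zero, zero_add]
  rw [finset_sum_coeff, hdec]
  push_cast
  rw [Finset.sum_div]
  refine Finset.sum_congr rfl fun s _ => ?_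
  rw [Finset.sum_div]
  refine Finset.sum_congr rfl fun i _ => ?_
  rw [Finset.sum_div]
  refine Finset.sum_congr rfl fun T _ => ?_
  rw [hAf]

end

end Pool.Agent.PN
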